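import Pool.Agent.Helper10.CO.MovG
import Pool.Agent.Helper10.LV.GenLine
import Pool.Agent.Helper49.LV.GenLine

/-!
# CO: lines and nonlinear families

Copies of `Helper10.LV.exists_killer`, `Helper10.LV.no_two`, `Helper49.LV.gen_line` for `MovG`.
-/

set_option autoImplicit false

namespace Pool.Agent.Helper10.CO

open scoped BigOperators
open Pool.Agent.Helper8.LG (Ix Dual form mon)
open Pool.Agent.Helper49.LG (abi ab mon_ab)

/-- **The killer derivation**, a combination of the derivations `D_s`. -/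
theorem exists_killer_sum {E : Type*} [Field E] {σ ι τ κ : Type*} [Fintype σ] [DecidableEq σ]
    [Fintype ι] [DecidableEq ι] [Fintype τ] [Fintype κ] (q : ι → ℕ)
    (ah : (i : ι) → Sym σ (q i) → E) (D : Ix σ q → Derivation ℤ E E)
    (jj : τ → Ix σ q) (θ : τ → Ix σ q → E) (hD : Dual q ah D jj θ) (α β : σ) (z : κ → E)
    (hcard : Fintype.card κ + Fintype.card τ < ∑ i, (q i + 1)) :
    ∃ (f : (Σ i : ι, Fin (q i + 1)) → E) (δ : Derivation ℤ E E), (∃ s, f s ≠ 0) ∧
      (∀ m, δ (z m) = 0) ∧ (∀ y, δ y = ∑ s, f s * D (abi q α β s) y) ∧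
      ∀ (i : ι) (x : σ → E), ∑ J, δ (ah i J) * mon x J =
        ∑ r : Fin (q i + 1), f ⟨i, r⟩ * (x α ^ (q i - r) * x β ^ (r : ℕ)) := by
  classical
  set Λ : ((Σ i : ι, Fin (q i + 1)) → E) →ₗ[E] (κ ⊕ τ → E) :=
    { toFun := fun f => Sum.elim (fun m => ∑ s, f s * D (abi q α β s) (z m))
        fun j => ∑ s, f s * θ j (abi q α β s)
      map_add' := fun f g => by
        funext t
        rcases t with m | j <;> simp [add_mul, Finset.sum_add_distrib]
      map_smul' := fun c f => by
        funext t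
        rcases t with m | j <;> simp [Finset.mul_sum, mul_assoc] } with hΛ
  have hker : LinearMap.ker Λ ≠ ⊥ := by
    apply LinearMap.ker_ne_bot_of_finrank_lt
    rw [Module.finrank_fintype_fun_eq_card, Module.finrank_fintype_fun_eq_card, Fintype.card_sum,
      Fintype.card_sigma]
    simpa using hcard
  obtain ⟨f, hf, hf0⟩ := (Submodule.ne_bot_iff _).1 hker
  have hf1 : ∀ m, ∑ s, f s * D (abi q α β s) (z m) = 0 := fun m =>
    congrFun (LinearMap.mem_ker.1 hf) (Sum.inl m)
  have hf2 : ∀ j, ∑ s, f s * θ j (abi q α β s) = 0 := fun j =>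
    congrFun (LinearMap.mem_ker.1 hf) (Sum.inr j)
  set δ : Derivation ℤ E E := ∑ s, f s • D (abi q α β s) with hδ
  have hδa : ∀ y, δ y = ∑ s, f s * D (abi q α β s) y := by
    intro y
    have h1 : δ y = (Derivation.coeFnAddMonoidHom δ) y := rfl
    rw [h1, hδ, map_sum, Finset.sum_apply]
    rfl
  have hδq : ∀ t : Ix σ q, δ (ah t.1 t.2) = ∑ s, if abi q α β s = t then f s else 0 := by
    intro t
    rw [hδa]
    have h1 : ∀ s, f s * D (abi q α β s) (ah t.1 t.2) = (if abi q α β s = t then f s else 0) -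
        ∑ j, if jj j = t then f s * θ j (abi q α β s) else 0 := by
      intro s
      rw [hD (abi q α β s) t, mul_sub, mul_ite, mul_one, mul_zero, Finset.mul_sum]
      congr 1
      exact Finset.sum_congr rfl fun j _ => by rw [mul_ite, mul_zero]
    rw [Finset.sum_congr rfl fun s _ => h1 s, Finset.sum_sub_distrib, Finset.sum_comm]
    have h2 : ∑ j, ∑ s, (if jj j = t then f s * θ j (abi q α β s) else 0) = 0 := by
      refine Finset.sum_eq_zero fun j _ => ?_
      split_ifs
      · exact hf2 j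
      · exact Finset.sum_const_zero
    rw [h2, sub_zero]
  refine ⟨f, δ, ?_, fun m => by rw [hδa]; exact hf1 m, hδa, ?_⟩
  · by_contra h
    push Not at h
    exact hf0 (funext fun s => h s)
  · intro i x
    have h1 : ∀ J : Sym σ (q i), δ (ah i J) * mon x J =
        ∑ s, if abi q α β s = ⟨i, J⟩ then f s * mon x J else 0 := by
      intro J
      rw [hδq ⟨i, J⟩, Finset.sum_mul]
      exact Finset.sum_congr rfl fun s _ => by rw [ite_mul, zero_mul]
    rw [Finset.sum_congr rfl fun J _ => h1 J, Finset.sum_comm, ← Finset.univ_sigma_univ,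
      Finset.sum_sigma, Finset.sum_eq_single i]
    · refine Finset.sum_congr rfl fun r _ => ?_
      rw [Finset.sum_eq_single (ab α β (q i) r)]
      · rw [if_pos (show abi q α β ⟨i, r⟩ = ⟨i, ab α β (q i) r⟩ from rfl), mon_ab]
      · intro J _ hJ
        rw [if_neg]
        intro h
        apply hJ
        unfold abi at h
        rw [Sigma.mk.injEq] at h
        exact (eq_of_heq h.2).symm
      · intro h
        exact absurd (Finset.mem_univ _) h
    · intro i' _ hi'
      refine Finset.sum_eq_zero fun r _ => Finset.sum_eq_zero fun J _ => ?_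
      rw [if_neg]
      intro h
      exact hi' (congrArg Sigma.fst h)
    · intro h
      exact absurd (Finset.mem_univ _) h

/-- **The killer derivation**, moving linear systems. -/
theorem exists_killer {E : Type*} [Field E] {σ ι τ κ : Type*} [Fintype σ] [DecidableEq σ]
    [Fintype ι] [DecidableEq ι] [Fintype τ] [Fintype κ] (d b q : ι → ℕ)
    (a : (i : ι) → Sym σ (d i) → E) (ap : (i : ι) → Sym σ (b i) → E)
    (ah : (i : ι) → Sym σ (q i) → E) (D : Ix σ q → Derivation ℤ E E)
    (jj : τ → Ix σ q) (θ : τ → Ix σ q → E) (hD : Dual q ah D jj θ)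
    (hM : MovG d b q a ap ah D) (α β : σ) (z : κ → E)
    (hcard : Fintype.card κ + Fintype.card τ < ∑ i, (q i + 1)) :
    ∃ (f : (i : ι) → Fin (q i + 1) → E) (δ : Derivation ℤ E E), (∃ i r, f i r ≠ 0) ∧
      (∀ m, δ (z m) = 0) ∧ ∀ (i : ι) (x : σ → E), (∀ l, δ (x l) = 0) →
        δ (form (a i) x) = form (ap i) x *
          ∑ r : Fin (q i + 1), f i r * (x α ^ (q i - r) * x β ^ (r : ℕ)) := by
  classical
  obtain ⟨f, δ, ⟨s, hf⟩, hz, hc, hform⟩ := exists_killer_sum q ah D jj θ hD α β z hcard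
  refine ⟨fun i r => f ⟨i, r⟩, δ, ⟨s.1, s.2, hf⟩, hz, fun i x hx => ?_⟩
  obtain ⟨g, hg, _⟩ := Pool.Agent.Helper8.LG.kf_grad_form (a i) x
  rw [hg δ, Finset.sum_eq_zero (s := Finset.univ) (f := fun l => g l * δ (x l))
    (fun l _ => by rw [hx, mul_zero]), add_zero, ← hform i x]
  have h1 : ∀ {n : ℕ} (c : Sym σ n → E), ∑ J, δ (c J) * mon x J =
      ∑ s, f s * ∑ J, D (abi q α β s) (c J) * mon x J := by
    intro n c
    have h2 : ∀ J : Sym σ n, δ (c J) * mon x J =
        ∑ s, f s * (D (abi q α β s) (c J) * mon x J) := by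
      intro J
      rw [hc, Finset.sum_mul]
      exact Finset.sum_congr rfl fun s _ => mul_assoc _ _ _
    rw [Finset.sum_congr rfl fun J _ => h2 J, Finset.sum_comm]
    exact Finset.sum_congr rfl fun s _ => (Finset.mul_sum _ _ _).symm
  rw [h1, h1, Finset.mul_sum]
  refine Finset.sum_congr rfl fun s _ => ?_
  rw [movG_der hM]
  ring

section

open Pool.Agent.Helper49.LG (zero_of_nat lineP lineP_eval form_mul)
open Pool.Agent.Helper49.LV (lineP_ne zero_of_mul)

/-- A line is not contained in all the hypersurfaces. -/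
theorem gen_line {E : Type*} [Field E] [CharZero E] {σ ι τ : Type*} [Fintype σ] [DecidableEq σ]
    [Fintype ι] [DecidableEq ι] [Fintype τ] (d b q : ι → ℕ)
    (a : (i : ι) → Sym σ (d i) → E) (p : (i : ι) → Sym σ (b i) → E)
    (h : (i : ι) → Sym σ (q i) → E) (D : Ix σ q → Derivation ℤ E E)
    (jj : τ → Ix σ q) (θ : τ → Ix σ q → E) (hD : Dual q h D jj θ) (hM : MovG d b q a p h D)
    (α β : σ) (hαβ : α ≠ β)
    (u v : σ → E) (huα : u α = 1) (huβ : u β = 0) (hvα : v α = 0) (hvβ : v β = 1)
    (y : σ → E) (hy : ∀ l, y l = y α * u l + y β * v l) (hPy : ∀ i, form (p i) y ≠ 0)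
    (hcount : 2 * Fintype.card σ + Fintype.card τ ≤ ∑ i, (q i + 1) + 3) :
    ∃ (i : ι) (n : ℕ), form (a i) (fun l => u l + n * v l) ≠ 0 := by
  classical
  by_contra hcon
  push Not at hcon
  have hcard : Fintype.card {l : σ // l ≠ α ∧ l ≠ β} + 2 = Fintype.card σ := by
    have h1 : Fintype.card {l : σ // l ≠ α ∧ l ≠ β} =
        (Finset.univ.filter fun l : σ => l ≠ α ∧ l ≠ β).card := Fintype.card_subtype _
    have h2 : (Finset.univ.filter fun l : σ => l ≠ α ∧ l ≠ β) = Finset.univ \ {α, β} := by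
      ext l
      simp
    rw [h1, h2, Finset.card_sdiff_of_subset (Finset.subset_univ _), Finset.card_pair hαβ,
      Finset.card_univ]
    have h3 : 2 ≤ Fintype.card σ := by
      rw [← Finset.card_pair hαβ]
      exact Finset.card_le_univ _
    omega
  obtain ⟨f, δ, ⟨i, r, hfr⟩, hδ, hform⟩ := exists_killer d b q a p h D jj θ hD hM α β
    (κ := {l : σ // l ≠ α ∧ l ≠ β} × Bool) (fun m => if m.2 then u m.1 else v m.1) (by
      rw [Fintype.card_prod, Fintype.card_bool]
      omega)
  have hδu : ∀ l, δ (u l) = 0 := by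
    intro l
    by_cases h1 : l = α
    · rw [h1, huα, Derivation.map_one_eq_zero]
    · by_cases h2 : l = β
      · rw [h2, huβ, map_zero]
      · exact hδ (⟨l, h1, h2⟩, true)
  have hδv : ∀ l, δ (v l) = 0 := by
    intro l
    by_cases h1 : l = α
    · rw [h1, hvα, map_zero]
    · by_cases h2 : l = β
      · rw [h2, hvβ, Derivation.map_one_eq_zero]
      · exact hδ (⟨l, h1, h2⟩, false)
  have hPl : lineP (p i) u v ≠ 0 := by
    refine lineP_ne (p i) u v (y α) (y β) ?_
    have h1 : (fun l => y α * u l + y β * v l) = y := by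
      funext l
      exact (hy l).symm
    rw [h1]
    exact hPy i
  apply hfr
  refine zero_of_mul (p i) u v hPl α β ?_ (q i) (f i) ?_ r
  · rw [huα, huβ, hvα, hvβ]
    simp
  · intro n
    rw [← hform i (fun l => u l + n * v l), hcon i n, map_zero]
    intro l
    rw [map_add, hδu, zero_add, Derivation.leibniz, hδv, smul_zero, zero_add,
      Derivation.map_natCast, smul_zero]

end

section

open Pool.Agent.Helper10.LV (zero_of_nat_mul)

/-- The forms do not all vanish in at most two points of a line. -/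
theorem no_two {E : Type*} [Field E] [CharZero E] {σ ι τ : Type*} [Fintype σ] [DecidableEq σ]
    [Fintype ι] [DecidableEq ι] [Fintype τ] (d b q : ι → ℕ)
    (a : (i : ι) → Sym σ (d i) → E) (ap : (i : ι) → Sym σ (b i) → E)
    (ah : (i : ι) → Sym σ (q i) → E) (D : Ix σ q → Derivation ℤ E E)
    (jj : τ → Ix σ q) (θ : τ → Ix σ q → E) (hD : Dual q ah D jj θ)
    (hM : MovG d b q a ap ah D)
    (p p' : σ → E) (α β : σ) (hdet : p α * p' β - p β * p' α ≠ 0)
    (hP : ∀ i, ∃ x y : E, form (ap i) (fun l => x * p l + y * p' l) ≠ 0)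
    (ip iq : σ) (hp : p ip = 1) (hq : p' iq = 1) (U : Finset ι) (e : ι → E) (c : ι → ℕ)
    (he : ∀ i ∉ U, e i = 0)
    (h : ∀ (i : ι) (n : ℕ), form (a i) (fun l => p l + n * p' l) = e i * (n : E) ^ c i)
    (hcount : 2 * Fintype.card σ + U.card + Fintype.card τ < ∑ i, (q i + 1) + 2) : False := by
  classical
  have hcard : ∀ j : σ, Fintype.card {l : σ // l ≠ j} + 1 = Fintype.card σ := by
    intro j
    have h1 : Fintype.card {l : σ // l ≠ j} = Fintype.card σ - 1 := by
      rw [Fintype.card_subtype_compl (fun l => l = j)]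
      simp
    have h2 : 0 < Fintype.card σ := Fintype.card_pos_iff.2 ⟨j⟩
    omega
  obtain ⟨f, δ, ⟨i, r, hfr⟩, hδ, hform⟩ := exists_killer d b q a ap ah D jj θ hD hM α β
    (κ := ({l : σ // l ≠ ip} ⊕ {l : σ // l ≠ iq}) ⊕ U)
    (Sum.elim (Sum.elim (fun l => p l) fun l => p' l) fun i => e i) (by
      rw [Fintype.card_sum, Fintype.card_sum, Fintype.card_coe]
      have h1 := hcard ip
      have h2 := hcard iq
      omega)
  have hδp : ∀ l, δ (p l) = 0 := by
    intro l
    by_cases h1 : l = ip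
    · rw [h1, hp, Derivation.map_one_eq_zero]
    · exact hδ (Sum.inl (Sum.inl ⟨l, h1⟩))
  have hδq : ∀ l, δ (p' l) = 0 := by
    intro l
    by_cases h1 : l = iq
    · rw [h1, hq, Derivation.map_one_eq_zero]
    · exact hδ (Sum.inl (Sum.inr ⟨l, h1⟩))
  have hδe : ∀ i, δ (e i) = 0 := by
    intro i
    by_cases h1 : i ∈ U
    · exact hδ (Sum.inr ⟨i, h1⟩)
    · rw [he i h1, map_zero]
  apply hfr
  refine zero_of_nat_mul (ap i) p p' (hP i) (q i) (f i) α β hdet ?_ r
  intro n
  rw [← hform i (fun l => p l + n * p' l), h i n, Derivation.leibniz, hδe, smul_zero, add_zero]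
  · have h1 : δ ((n : E) ^ c i) = 0 := by
      rw [Derivation.leibniz_pow, Derivation.map_natCast, smul_zero, smul_zero]
    rw [h1, smul_zero]
  · intro l
    rw [map_add, hδp, zero_add, Derivation.leibniz, hδq, smul_zero, zero_add,
      Derivation.map_natCast, smul_zero]

end

end Pool.Agent.Helper10.CO
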