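import Pool.Agent.Helper10.CO.BoundLine
import Pool.Agent.Helper10.CO.GenLine
import Pool.Agent.Helper49.LG.BoundPt

/-! # CO: points of the intersection of all the hypersurfaces are bounded, nonlinear families -/

set_option autoImplicit false

namespace Pool.Agent.Helper10.CO

open scoped BigOperators
open Pool.Agent.Helper8.LG
open Pool.Agent.Helper49.LG (lineP lineP_eval form_mul lead_mem exists_den intCl_closed)

/-- The multiplier of a point: one `G` which works in all directions. -/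
theorem exists_lead {L : Type*} [Field L] [CharZero L] {σ ι τ : Type*} [Fintype σ] [DecidableEq σ]
    [Fintype ι] [DecidableEq ι] [Fintype τ] (d b q : ι → ℕ)
    (a : (i : ι) → Sym σ (d i) → L) (ap : (i : ι) → Sym σ (b i) → L)
    (ah : (i : ι) → Sym σ (q i) → L) (D : Ix σ q → Derivation ℤ L L)
    (jj : τ → Ix σ q) (θ : τ → Ix σ q → L) (hD : Dual q ah D jj θ)
    (hM : MovG d b q a ap ah D)
    (hw3 : 2 * Fintype.card σ + Fintype.card τ ≤ ∑ i, (q i + 1) + 3)
    (x δ : σ → L) (hx : ∀ i, form (a i) x = 0) (hPx : ∀ i, form (ap i) x ≠ 0) (hP : ∃ j l, x j * δ l - x l * δ j ≠ 0) :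
    ∃ G : L, G ≠ 0 ∧ ∀ (R : Subring L) (Δ : L), (∀ z : L, IsIntegral R z → z ∈ R) → Δ ≠ 0 →
      Δ ∈ R → (∀ i J, Δ * a i J ∈ R) → (∀ j l, Δ * (x j * δ l - x l * δ j) ∈ R) →
      ∀ l, Δ ^ (∑ i, d i + 2) * (G * x l) ∈ R := by
  classical
  obtain ⟨α, β, hαβ, hxα⟩ : ∃ α β, x α * δ β - x β * δ α ≠ 0 ∧ x α ≠ 0 := by
    obtain ⟨j, l, hjl⟩ := hP
    by_cases hj : x j = 0
    · refine ⟨l, j, ?_, ?_⟩
      · intro h
        apply hjl
        linear_combination -h
      · intro h
        apply hjl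
        rw [hj, h]
        ring
    · exact ⟨j, l, hjl, hj⟩
  set P : σ → σ → L := fun j l => x j * δ l - x l * δ j with hPdef
  have hP0 : P α β ≠ 0 := hαβ
  have hne : α ≠ β := by
    intro h
    apply hαβ
    rw [h]
    ring
  have hpp : ∀ j, P j j = 0 := fun j => by
    simp only [hPdef]
    ring
  obtain ⟨i, n, hin⟩ := gen_line d b q a ap ah D jj θ hD hM α β hne
    (fun l => P l β / P α β) (fun l => P α l / P α β) (div_self hP0) (by rw [hpp, zero_div])
    (by rw [hpp, zero_div]) (div_self hP0) x (fun l => by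
      have h1 : x l * P α β = x α * P l β + x β * P α l := by
        simp only [hPdef]
        ring
      show x l = x α * (P l β / P α β) + x β * (P α l / P α β)
      rw [mul_div_assoc', mul_div_assoc', ← add_div, eq_div_iff hP0, h1]) hPx hw3
  set F := lineP (a i) (fun l => P l β) (fun l => P α l) with hF
  have hF0 : F ≠ 0 := by
    intro h0
    have h1 := lineP_eval (a i) (fun l => P l β) (fun l => P α l) (n : L)
    rw [← hF, h0, Polynomial.eval_zero] at h1
    apply hin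
    have h2 := form_mul 1 (P α β)⁻¹ (a i) (fun l => P l β + n * P α l)
    rw [← h1, mul_zero] at h2
    simp only [one_mul] at h2
    rw [← h2]
    congr 1
    funext l
    rw [div_eq_mul_inv, div_eq_mul_inv]
    ring
  set z := x β / x α with hz
  have hpl : ∀ l, P l β + z * P α l = P α β / x α * x l := by
    intro l
    rw [hz]
    simp only [hPdef]
    field_simp
    ring
  have hroot : form (a i) (fun l => P l β + z * P α l) = 0 := by
    have h2 := form_mul 1 (P α β / x α) (a i) x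
    rw [hx i, mul_zero] at h2
    simp only [one_mul] at h2
    rw [← h2]
    congr 1
    funext l
    exact hpl l
  refine ⟨F.leadingCoeff * (P α β / x α),
    mul_ne_zero (Polynomial.leadingCoeff_ne_zero.2 hF0) (div_ne_zero hP0 hxα), ?_⟩
  intro R Δ hR hΔ0 hΔ ha hPR l
  have h1 := lead_mem R hR Δ (a i) (fun l => P l β) (fun l => P α l) hΔ0 (ha i)
    (fun l => hPR l β) (fun l => hPR α l) z hroot l
  rw [hpl l, ← hF] at h1
  obtain ⟨r, hr⟩ : ∃ r, ∑ i, d i + 2 = d i + 2 + r := by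
    apply Nat.exists_eq_add_of_le
    have h2 : d i ≤ ∑ i, d i := Finset.single_le_sum (f := d) (fun _ _ => Nat.zero_le _)
      (Finset.mem_univ i)
    omega
  rw [hr, pow_add]
  have h3 : Δ ^ (d i + 2) * Δ ^ r * (F.leadingCoeff * (P α β / x α) * x l) =
      Δ ^ r * (Δ ^ (d i + 2) * (F.leadingCoeff * (P α β / x α * x l))) := by
    ring
  rw [h3]
  exact mul_mem (pow_mem hΔ r) h1

/-- **Points of the intersection are bounded.** -/
theorem bounded_pt {k L : Type*} [Field k] [Field L] [CharZero L] [Algebra k L]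
    {σ ι τ : Type*} [Fintype σ] [DecidableEq σ] [Fintype ι] [DecidableEq ι] [Fintype τ]
    (d b q : ι → ℕ) (hq : ∀ i, 0 < q i) (a : (i : ι) → Sym σ (d i) → L)
    (ap : (i : ι) → Sym σ (b i) → L) (ah : (i : ι) → Sym σ (q i) → L)
    (hF : FamG k d b q a ap ah) (T : Finset (Ix σ q))
    (hind : AlgebraicIndependent k (fun p : T => ah p.1.1 p.1.2))
    (hfin : FiniteDimensional
      (IntermediateField.adjoin k (Set.range fun p : T => ah p.1.1 p.1.2)) L)
    (D : Ix σ q → Derivation ℤ L L) (jj : τ → Ix σ q) (θ : τ → Ix σ q → L)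
    (hD : Dual q ah D jj θ) (hT : ∀ j, jj j ∉ T)
    (hDk : ∀ p (c : k), D p (algebraMap k L c) = 0)
    (i₀ j₁ : σ) (hj : j₁ ≠ i₀) (w : ℕ)
    (hw1 : 2 * w + 1 + Fintype.card τ ≤ ∑ i, (q i + 1)) (hw2 : w + 2 ≤ ∑ i, q i)
    (hw3 : 2 * Fintype.card σ + Fintype.card τ ≤ ∑ i, (q i + 1) + 3) :
    ∃ V : Submodule k L, FiniteDimensional k V ∧ ∀ x : σ → L, x i₀ = 1 →
      (∀ i, form (a i) x = 0) → (∀ i, form (ap i) x ≠ 0) → MinorsVanish D x w → ∃ G : L, G ≠ 0 ∧ ∀ l, G * x l ∈ V := by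
  classical
  obtain ⟨V, hV, hVx⟩ := bounded_line d b q hq a ap ah hF T hind hfin D jj θ hD hT
    hDk Finset.univ i₀ j₁ hj w
    (by
      rw [Finset.sum_add_distrib, Finset.sum_const, smul_eq_mul, mul_one] at hw1
      exact hw1) hw2 ⊥ Subalgebra.fg_bot
  have := hV
  set y₀ : T → L := fun p : T => ah p.1.1 p.1.2 with hy₀
  have htr := others_transcendental (k := k) y₀ hind
  have hof := others_finite (k := k) y₀ hfin
  set S : Set L := Set.range fun p : Ix σ d => a p.1 p.2 with hS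
  have hSfin : S.Finite := Set.finite_range _
  have hdir : ∀ (p : T) (t : L), Transcendental (others (k := k) y₀ p) t →
      FiniteDimensional (Subfield.closure ((others (k := k) y₀ p : Set L) ∪ {t})) L →
      ∃ Δ : L, Δ ≠ 0 ∧ Δ ∈ intCl (others (k := k) y₀ p) t ∧
        (∀ z : L, IsIntegral (intCl (others (k := k) y₀ p) t) z →
          z ∈ intCl (others (k := k) y₀ p) t) ∧
        (∀ f ∈ V, Δ * f ∈ intCl (others (k := k) y₀ p) t) ∧
        ∀ f ∈ S, Δ * f ∈ intCl (others (k := k) y₀ p) t := by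
    intro p t ht hf
    obtain ⟨h1, h2⟩ := intCl_dedekind (others (k := k) y₀ p) t ht hf
    have hk : ∀ c : k, algebraMap k L c ∈ intCl (others (k := k) y₀ p) t := by
      intro c
      have h3 : algebraMap k L c ∈ Subring.closure ((others (k := k) y₀ p : Set L) ∪ {t}) :=
        Subring.subset_closure (Or.inl (IntermediateField.algebraMap_mem _ c))
      exact isIntegral_algebraMap (x := (⟨algebraMap k L c, h3⟩ :
        Subring.closure ((others (k := k) y₀ p : Set L) ∪ {t})))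
    have := h2
    obtain ⟨Δ, h4, h5, h6, h7⟩ := exists_den (intCl (others (k := k) y₀ p) t) hk V S hSfin
    exact ⟨Δ, h4, h5, intCl_closed _ _ h1 h2, h6, h7⟩
  choose Δ₁ h10 h11 h12 h13 h14 using fun p => hdir p (y₀ p) (htr p).1 (hof p).1
  choose Δ₂ h20 h21 h22 h23 h24 using fun p => hdir p (y₀ p)⁻¹ (htr p).2 (hof p).2
  obtain ⟨V', hV', hV''⟩ := fd y₀ hind hfin (fun p => Δ₁ p ^ (∑ i, d i + 2))
    (fun p => Δ₂ p ^ (∑ i, d i + 2)) (fun p => pow_ne_zero _ (h10 p))
    (fun p => pow_ne_zero _ (h20 p))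
  refine ⟨V', hV', fun x hx0 hx hPx hm => ?_⟩
  obtain ⟨δ, hδ1, hδ2⟩ := hVx x hx0 (fun i _ => hx i) (fun i hi => absurd (Finset.mem_univ i) hi)
    hPx (fun i hi => absurd (Finset.mem_univ i) hi) hm
  obtain ⟨G, hG0, hG⟩ := exists_lead d b q a ap ah D jj θ hD
    (hF.mov D hDk) hw3 x δ hx hPx hδ1
  refine ⟨G, hG0, fun l => hV'' _ fun p => ⟨?_, ?_⟩⟩
  · exact hG _ (Δ₁ p) (h12 p) (h10 p) (h11 p) (fun i J => h14 p _ ⟨⟨i, J⟩, rfl⟩)
      (fun j l => h13 p _ (hδ2 j l)) l
  · exact hG _ (Δ₂ p) (h22 p) (h20 p) (h21 p) (fun i J => h24 p _ ⟨⟨i, J⟩, rfl⟩)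
      (fun j l => h23 p _ (hδ2 j l)) l

end Pool.Agent.Helper10.CO
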