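import Pool.Agent.Helper10.CO.FinalLine
import Pool.Agent.Helper8.CO.MultiC
import Pool.Agent.Helper91.CO.Chain
import Pool.Agent.Helper8.LV.EngG

/-! # CO: the engine of case 2 in terms of polynomials -/

set_option autoImplicit false

open MvPolynomial

namespace Pool.Agent.Helper10.CO

open scoped BigOperators
open Pool.Agent.Helper8.LG Pool.Agent.Helper91.CO

/-- the rational points of the intersection of all the hypersurfaces -/
theorem engA_C {k₀ L : Type*} [Field k₀] [Field L] [CharZero L] [Algebra k₀ L]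
    (hfg : (⊤ : IntermediateField k₀ L).FG) {N r n : ℕ} (d q : Fin r → ℕ)
    (b : Fin r → Fin n → ℕ) (hq : ∀ i, 0 < q i) (hbq : ∀ i j, b i j + q i ≤ d i)
    (F : Fin r → MvPolynomial (Fin (N + 1)) L)
    (F₀ : Fin r → MvPolynomial (Fin (N + 1) ⊕ Fin n) k₀)
    (hF₀ : ∀ i, IsWeightedHomogeneous (wts N fun j => d i - b i j) (F₀ i) (d i))
    (H : Fin r → Fin n → MvPolynomial (Fin (N + 1)) L)
    (hH : ∀ i j, (H i j).IsHomogeneous (d i - b i j))
    (hFA : ∀ i, F i = aeval (Sum.elim X (H i)) (F₀ i))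
    (w c : ℕ)
    (hcoef : ((∑ i, ∑ j, (N + (d i - b i j)).choose N : ℕ) : Cardinal) ≤
      Algebra.trdeg k₀ (IntermediateField.adjoin k₀ {z | ∃ i j J, z = coeff J (H i j)}) + c)
    (h1 : 2 * w + 1 + c ≤ ∑ i, (q i + 1)) (h2 : w + 2 ≤ ∑ i, q i)
    (h3 : 2 * N + c ≤ ∑ i, (q i + 1) + 1) (i₀ : Fin (N + 1)) :
    {x : Fin (N + 1) → L | x i₀ = 1 ∧
      Algebra.trdeg k₀ (IntermediateField.adjoin k₀ (Set.range x)) ≤ w ∧
      (∀ i, ∃ j, eval x (mder (F₀ i) (H i) j) ≠ 0) ∧ ∀ i, eval x (F i) = 0}.Finite := by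
  classical
  have hb : ∀ i j, b i j ≤ d i := fun i j => (Nat.le_add_right _ _).trans (hbq i j)
  have hdF : ∀ i, (F i).IsHomogeneous (d i) := fun i => by
    rw [hFA i]
    exact hom_aeval _ (F₀ i) (hF₀ i) (H i) (hH i)
  have hmd : ∀ i j, (mder (F₀ i) (H i) j).IsHomogeneous (b i j) := fun i j =>
    hom_mder _ (F₀ i) (hF₀ i) (H i) (hH i) j (Nat.add_sub_cancel' (hb i j)).symm
  suffices h : ∀ j : Fin r → Fin n, {x : Fin (N + 1) → L | x i₀ = 1 ∧
      Algebra.trdeg k₀ (IntermediateField.adjoin k₀ (Set.range x)) ≤ w ∧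
      (∀ i, eval x (mder (F₀ i) (H i) (j i)) ≠ 0) ∧ ∀ i, eval x (F i) = 0}.Finite by
    refine (Set.finite_iUnion h).subset ?_
    rintro x ⟨hx1, hx2, hx3, hx4⟩
    choose j hj using hx3
    exact Set.mem_iUnion.2 ⟨j, hx1, hx2, hj, hx4⟩
  intro j
  obtain ⟨k, Q, hQ, hcoef'⟩ := Pool.Agent.Helper8.CO.multi_C d b hb F₀ H hH c hcoef j
  have hkfg : (⊤ : IntermediateField k L).FG := Pool.Agent.Helper8.LV.fg_tower k hfg
  have hform : ∀ (x : Fin (N + 1) → L) i,
      form (cf (d i) (aeval (Sum.elim X (H i)) (F₀ i))) x = eval x (F i) := fun x i => by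
    rw [← hFA i]
    exact form_cf _ (hdF i) x
  have hformP : ∀ (x : Fin (N + 1) → L) i,
      form (cf (b i (j i)) (mder (F₀ i) (H i) (j i))) x = eval x (mder (F₀ i) (H i) (j i)) :=
    fun x i => form_cf _ (hmd i (j i)) x
  have hqq : ∀ i, q i ≤ d i - b i (j i) := fun i => by
    have := hbq i (j i)
    omega
  have hs1 : ∑ i, (q i + 1) ≤ ∑ i, (d i - b i (j i) + 1) :=
    Finset.sum_le_sum fun i _ => Nat.add_le_add_right (hqq i) 1
  have hs2 : ∑ i, q i ≤ ∑ i, (d i - b i (j i)) := Finset.sum_le_sum fun i _ => hqq i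
  have hfin := final_line hkfg d (fun i => b i (j i)) (fun i => d i - b i (j i))
    (fun i => (hq i).trans_le (hqq i)) (fun i => cf (d i) (aeval (Sum.elim X (H i)) (F₀ i)))
    (fun i => cf (b i (j i)) (mder (F₀ i) (H i) (j i)))
    (fun i => cf (d i - b i (j i)) (H i (j i))) ⟨Q, hQ⟩ w c (by
      rw [card_Ix, ← Pool.Agent.Helper8.LV.adjoin_poly k
        (fun i => d i - b i (j i)) (fun i => H i (j i)) (fun i => hH i (j i))]
      exact hcoef') i₀ (h1.trans hs1) (h2.trans hs2) (by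
      rw [Fintype.card_fin]
      omega)
  refine hfin.subset ?_
  rintro x ⟨h4, h5, h6, h7⟩
  refine ⟨h4, (Pool.Agent.Helper8.LV.trdeg_mono' k _).trans h5, fun i => ?_, fun i => ?_⟩
  · rw [hformP]
    exact h6 i
  · rw [hform]
    exact h7 i

end Pool.Agent.Helper10.CO
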