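import Pool.Agent.Helper49.LG.FinalLine
import Pool.Agent.Helper10.CO.BoundPt
import Pool.Agent.Helper10.CO.UltraLine
import Pool.Agent.Helper8.LV.Final

/-! # CO: rational points of the intersection of all the hypersurfaces, over fields -/

set_option autoImplicit false

namespace Pool.Agent.Helper10.CO

open scoped BigOperators
open Pool.Agent.Helper8.LG
open Pool.Agent.Helper49.LG (lineP lineP_eval line_finite)

/-- **Rational points of the intersection**, normalised, over fields. -/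
theorem final_line {k₀ L : Type*} [Field k₀] [Field L] [CharZero L] [Algebra k₀ L]
    (hfg : (⊤ : IntermediateField k₀ L).FG)
    {σ ι : Type*} [Fintype σ] [DecidableEq σ] [Fintype ι] [DecidableEq ι]
    (d b q : ι → ℕ) (hq : ∀ i, 0 < q i) (a : (i : ι) → Sym σ (d i) → L)
    (ap : (i : ι) → Sym σ (b i) → L) (ah : (i : ι) → Sym σ (q i) → L)
    (hFam : FamG k₀ d b q a ap ah) (w c : ℕ)
    (hc : (Fintype.card (Ix σ q) : Cardinal) ≤ Algebra.trdeg k₀
      (IntermediateField.adjoin k₀ (Set.range fun p : Ix σ q => ah p.1 p.2)) + c)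
    (i₀ : σ) (hw1 : 2 * w + 1 + c ≤ ∑ i, (q i + 1)) (hw2 : w + 2 ≤ ∑ i, q i)
    (hw3 : 2 * Fintype.card σ + c ≤ ∑ i, (q i + 1) + 3) :
    {x : σ → L | x i₀ = 1 ∧
      Algebra.trdeg k₀ (IntermediateField.adjoin k₀ (Set.range x)) ≤ w ∧
      (∀ i, form (ap i) x ≠ 0) ∧ ∀ i, form (a i) x = 0}.Finite := by
  classical
  by_cases hj : ∀ j, j = i₀
  · refine Set.Subsingleton.finite ?_
    rintro x ⟨h1, -⟩ y ⟨h2, -⟩
    funext l
    rw [hj l, h1, h2]
  push Not at hj
  obtain ⟨j₁, hj⟩ := hj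
  obtain ⟨T, k, hT, hind, hfin, D, θ, hD, hDk⟩ := reduce hfg q ah c hc
  have hFam' : FamG k d b q a ap ah := hFam.tower
  obtain ⟨V, hV, hVb⟩ := bounded_pt d b q hq a ap ah hFam' T hind hfin D
    (fun j => j.1) θ hD (fun j => j.2) hDk i₀ j₁ hj w (by omega) hw2 (by omega)
  have := hV
  by_contra hinf
  rw [← Set.Infinite] at hinf
  set S : Set (σ → L) := {x : σ → L | x i₀ = 1 ∧
      Algebra.trdeg k₀ (IntermediateField.adjoin k₀ (Set.range x)) ≤ w ∧
      (∀ i, form (ap i) x ≠ 0) ∧ ∀ i, form (a i) x = 0} with hS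
  have hrank : ∀ x ∈ S, MinorsVanish D x w := by
    rintro x ⟨h1, h2, -⟩
    refine minors_of_trdeg (k := k₀) D ?_ x i₀ h1 w h2
    intro p r
    have h7 : algebraMap k₀ L r = algebraMap k L (algebraMap k₀ k r) :=
      IsScalarTower.algebraMap_apply k₀ k L r
    rw [h7]
    exact hDk p _
  obtain ⟨α, β, u, v, hαβ, huα, huβ, hvα, hvβ, hline⟩ := ultra_line (k := k) d b q hq a ap ah
    hFam' D (fun j => j.1) θ hD hDk Finset.univ i₀ j₁ hj w (by
      rw [Finset.sum_add_distrib, Finset.sum_const, smul_eq_mul, mul_one] at hw1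
      omega) hw2 V S hinf (by
      intro x hx
      have hx' := hx
      obtain ⟨h1, h2, hP, h3⟩ := hx'
      obtain ⟨G, hG0, hG⟩ := hVb x h1 h3 hP (hrank x hx)
      exact ⟨h1, fun i _ => h3 i, fun i hi => absurd (Finset.mem_univ i) hi, hP, hrank x hx, G, hG0,
        hG, fun i hi => absurd (Finset.mem_univ i) hi⟩)
  obtain ⟨y, hyS, hy⟩ := hline.nonempty
  obtain ⟨-, -, hPy, -⟩ := hyS
  obtain ⟨i, n, hin⟩ := gen_line d b q a ap ah D (fun j => j.1) θ hD
    (hFam'.mov D hDk) α β hαβ u v huα huβ hvα hvβ y hy hPy (by omega)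
  have hF : lineP (a i) u v ≠ 0 := by
    intro h0
    apply hin
    rw [← lineP_eval, h0, Polynomial.eval_zero]
  refine hline ((line_finite (a i) α β i₀ u v hF).subset ?_)
  rintro x ⟨⟨h1, _, _, h3⟩, h4⟩
  exact ⟨h1, h3 i, h4⟩

end Pool.Agent.Helper10.CO
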