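import Pool.Agent.Helper10.CO.PointBdd
import Pool.Agent.Helper10.LB.InfLine
import Pool.Agent.Helper10.CO.BoundLine
import Pool.Agent.Helper10.CO.UltraLine

/-! # CO: infinitely many integral points on one line, nonlinear families -/

set_option autoImplicit false

namespace Pool.Agent.Helper10.CO

open scoped BigOperators
open Pool.Agent.Helper8.LG Pool.Agent.Helper10.LB

/-- **An infinite set of integral points has infinitely many points on one line.** -/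
theorem inf_line {k L : Type*} [Field k] [Field L] [CharZero L] [Algebra k L]
    {σ ι τ : Type*} [Fintype σ] [DecidableEq σ] [Fintype ι] [DecidableEq ι] [Fintype τ]
    (d b q : ι → ℕ) (a : (i : ι) → Sym σ (d i) → L) (ap : (i : ι) → Sym σ (b i) → L)
    (ah : (i : ι) → Sym σ (q i) → L) (hF : FamG k d b q a ap ah) (hq : ∀ i, 0 < q i) (T : Finset (Ix σ q))
    (hind : AlgebraicIndependent k (fun p : T => ah p.1.1 p.1.2))
    (hfin : FiniteDimensional
      (IntermediateField.adjoin k (Set.range fun p : T => ah p.1.1 p.1.2)) L)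
    (D : Ix σ q → Derivation ℤ L L) (jj : τ → Ix σ q) (θ : τ → Ix σ q → L)
    (hD : Dual q ah D jj θ) (hT : ∀ j, jj j ∉ T)
    (hDk : ∀ p (c : k), D p (algebraMap k L c) = 0)
    (Z : Finset ι) (i₀ j₁ : σ) (hj : j₁ ≠ i₀)
    (hw1 : 2 * Fintype.card σ + Fintype.card τ ≤ ∑ i, q i + Z.card + 1)
    (hw2 : Fintype.card σ + 1 ≤ ∑ i, q i)
    (A : Subalgebra k L) (hA : A.FG) (S : Set (σ → L)) (hinf : S.Infinite)
    (hS : ∀ x ∈ S, x i₀ = 1 ∧ Pt a Z A.toSubring x ∧ ∀ i, form (ap i) x ≠ 0) :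
    ∃ (α β : σ) (p p' : σ → L), α ≠ β ∧ p α = 1 ∧ p β = 0 ∧ p' α = 0 ∧ p' β = 1 ∧
      {x ∈ S | ∀ l, x l = x α * p l + x β * p' l}.Infinite := by
  classical
  have hσ : 0 < Fintype.card σ := Fintype.card_pos_iff.2 ⟨i₀⟩
  set w : ℕ := Fintype.card σ - 1 with hw
  have hwσ : w + 1 = Fintype.card σ := by omega
  have hw1' : 2 * w + 1 + Fintype.card τ ≤ ∑ i, q i + Z.card := by omega
  have hw2' : w + 2 ≤ ∑ i, q i := by omega
  have hmin : ∀ x : σ → L, MinorsVanish D x w := fun x => minors_top D x w (by omega)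
  obtain ⟨V, hVfin, hV⟩ := bounded_line d b q hq a ap ah hF T
    hind hfin D jj θ hD hT hDk Z i₀ j₁ hj w hw1' hw2' A hA
  set X : ℕ → σ → L := fun m => (hinf.natEmbedding S m : σ → L) with hX
  have hXS : ∀ m, X m ∈ S := fun m => (hinf.natEmbedding S m).2
  have hXi : Function.Injective X := fun u v huv =>
    (hinf.natEmbedding S).injective (Subtype.ext huv)
  have hX1 : ∀ m, X m i₀ = 1 := fun m => (hS _ (hXS m)).1
  have hXp : ∀ m, Pt a Z A.toSubring (X m) := fun m => (hS _ (hXS m)).2.1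
  have hXP : ∀ m i, form (ap i) (X m) ≠ 0 := fun m => (hS _ (hXS m)).2.2
  have hM : MovG d b q a ap ah D := hF.mov D hDk
  have hP : ∀ m, ∃ δ : σ → L, (∃ j l, X m j * δ l - X m l * δ j ≠ 0) ∧
      ∀ j l, X m j * δ l - X m l * δ j ∈ V := fun m =>
    hV (X m) (hX1 m) (hXp m).zero (hXp m).ne (hXP m) (hXp m).int (hmin _)
  have hdir : Dirs k (fun p : T => ah p.1.1 p.1.2) D :=
    dirs_of_dual q ah T hind hfin D jj θ hD hT hDk
  obtain ⟨V', hV'fin, hV'⟩ := point_bdd (fun p : T => ah p.1.1 p.1.2) a ap ah D hdir jj θ hD hM Z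
    hw1 A hA i₀ V X hXp hXP hX1 hP
  obtain ⟨V'', hV''fin, hV''⟩ := second_round (fun p : T => ah p.1.1 p.1.2) D hdir a Z A hA V'
  have hinf1 : (X '' {m | ∃ G : L, G ≠ 0 ∧ ∀ l, G * X m l ∈ V'}).Infinite :=
    hV'.image hXi.injOn
  obtain ⟨α, β, p, p', hαβ, hpα, hpβ, hqα, hqβ, hline⟩ :=
    ultra_line d b q hq a ap ah hF D jj θ hD hDk Z i₀ j₁ hj w hw1' hw2' (V' ⊔ V'')
      (X '' {m | ∃ G : L, G ≠ 0 ∧ ∀ l, G * X m l ∈ V'}) hinf1 (by
        rintro _ ⟨m, ⟨G, hG0, hG⟩, rfl⟩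
        refine ⟨hX1 m, (hXp m).zero, (hXp m).ne, hXP m, hmin _, G, hG0, fun l => ?_, fun i hi J => ?_⟩
        · exact Submodule.mem_sup_left (hG l)
        · exact Submodule.mem_sup_right (hV'' (X m) G (hXp m) hG0 hG i hi J))
  refine ⟨α, β, p, p', hαβ, hpα, hpβ, hqα, hqβ, hline.mono ?_⟩
  rintro _ ⟨⟨m, _, rfl⟩, hx⟩
  exact ⟨hXS m, hx⟩

end Pool.Agent.Helper10.CO
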