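import Pool.Agent.Helper10.CO.MovG
import Pool.Agent.Helper49.LV.KeyLine

/-!
# CO: the key lemma for two-vectors, nonlinear families

Copy of `Helper49.LV.key_line` for `MovG`.
-/

set_option autoImplicit false

namespace Pool.Agent.Helper10.CO

open scoped BigOperators
open Pool.Agent.Helper8.LG (Ix Dual form mon col MinorsVanish Bdd RowBdd)
open Pool.Agent.Helper8.LV (eul cv syz)
open Pool.Agent.Helper49.LG (key_two_abs sy)
open Pool.Agent.Helper49.LV (KeyP emb e0 c0 r0 trans0 sy_c0)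
open Pool.Agent.Helper74.LG (scl scl_apply Trans exists_max_coord)

private theorem key_line_aux {E : Type*} [Field E] {σ ι Tt : Type*} [Fintype σ] [DecidableEq σ]
    [Fintype ι] [DecidableEq ι] [Fintype Tt] (n d b : ι → ℕ)
    (a : (i : ι) → Sym σ (d i) → E) (p : (i : ι) → Sym σ (b i) → E)
    (h : (i : ι) → Sym σ (n i + 1) → E)
    (D : Ix σ (fun i => n i + 1) → Derivation ℤ E E)
    (jj : Tt → Ix σ (fun i => n i + 1)) (θ : Tt → Ix σ (fun i => n i + 1) → E)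
    (hD : Dual (fun i => n i + 1) h D jj θ) (hM : MovG d b (fun i => n i + 1) a p h D)
    (Z : Finset ι) (x : σ → E) (i₀ j₁ : σ) (hx : x i₀ = 1) (hj : j₁ ≠ i₀)
    (hZ : ∀ i ∈ Z, form (a i) x = 0) (hU : ∀ i ∉ Z, form (a i) x ≠ 0)
    (hP : ∀ i, form (p i) x ≠ 0) (w : ℕ)
    (hw1 : 2 * w + 1 + Fintype.card Tt ≤ ∑ i, (n i + 1) + Z.card)
    (hw2 : w + 2 ≤ ∑ i, (n i + 1)) (hm : MinorsVanish D x w) :
    ∃ δ : σ → E, (∃ j l, x j * δ l - x l * δ j ≠ 0) ∧
      KeyP d a D θ Z x fun j l => x j * δ l - x l * δ j := by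
  classical
  obtain ⟨lam, hl1, hl2, hl3⟩ := exists_functional n a p h D jj θ hD hM Z x hZ hU
  have hext : ∀ f : (σ ⊕ ι) ⊕ Tt → E,
      LinearMap.funLeft E E (Equiv.sumAssoc σ ι Tt) (fun r => f (emb r)) = f := by
    intro f
    funext r
    rw [LinearMap.funLeft_apply]
    change f ((Equiv.sumAssoc σ ι Tt).symm (Equiv.sumAssoc σ ι Tt r)) = f r
    rw [Equiv.symm_apply_apply]
  have hcv0 : ∀ s, ∀ i ∈ Z, cv n a D θ Z x s (Sum.inl (Sum.inr i)) = 0 := by
    intro s i hi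
    simp [cv, hi]
  have hCm : ∀ q, col D x q ∈ Submodule.span E (Set.range (col D x)) :=
    fun q => Submodule.subset_span ⟨q, rfl⟩
  obtain ⟨δ, hδ1, hδ2⟩ := key_two_abs (fun i => n i + 1)
    (Z.map ⟨Sum.inl, Sum.inl_injective⟩ : Finset (ι ⊕ Tt)) x i₀ j₁ hx hj (e0 d Z x)
    (c0 n a D θ Z x) (r0 n a D θ Z x i₀) (by
      change x i₀ ≠ 0
      rw [hx]
      exact one_ne_zero)
    (by
      intro i hi
      obtain ⟨i', hi', rfl⟩ := Finset.mem_map.1 hi
      change eul d Z x (Sum.inl (Sum.inr i') : (σ ⊕ ι) ⊕ Tt) = 0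
      simp [eul, hi'])
    (by
      intro q l i hi
      obtain ⟨i', hi', rfl⟩ := Finset.mem_map.1 hi
      exact hcv0 _ i' hi')
    (by
      intro i'' i hi
      obtain ⟨i', hi', rfl⟩ := Finset.mem_map.1 hi
      exact hcv0 _ i' hi')
    (lam ∘ₗ LinearMap.funLeft E E (Equiv.sumAssoc σ ι Tt))
    (by
      rw [LinearMap.comp_apply]
      unfold e0
      rw [hext, hl1])
    (by
      intro s
      rw [LinearMap.comp_apply, sy_c0, hext, hl3])
    (fun i => -form (p i) x) (fun i => neg_ne_zero.2 (hP i))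
    (by
      intro i
      rw [LinearMap.comp_apply]
      unfold r0
      rw [hext, hl2, mon, Sym.coe_replicate, Multiset.map_replicate,
        Multiset.prod_replicate, hx, one_pow, mul_one])
    (col D x) w hm (hCm none)
    (by
      intro s
      exact sub_mem (Submodule.smul_mem _ (x s.2.1) (hCm (some ⟨s.1.1, s.2.2 ::ₛ s.1.2⟩)))
        (Submodule.smul_mem _ (x s.2.2) (hCm (some ⟨s.1.1, s.2.1 ::ₛ s.1.2⟩))))
    (fun i => hCm (some ⟨i, Sym.replicate (n i + 1) i₀⟩))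
    (by
      rw [Finset.card_map, Fintype.card_sum]
      omega) hw2
  refine ⟨δ, hδ1, fun O Δ hO hθ hrow => ?_⟩
  obtain ⟨j₀, hj₀, hjO⟩ := exists_max_coord O x i₀ (by
    rw [hx]
    exact one_ne_zero)
  have hci : (x j₀)⁻¹ ∈ O := by
    have h1 := hjO i₀
    rwa [hx, one_div] at h1
  have hcv : ∀ s r, Δ * cv n a D θ Z (fun l => x l / x j₀) s (emb r) ∈ O := by
    intro s r
    rcases r with l | (i | j)
    · exact hO.2 s _ (hjO l)
    · change Δ * (if i ∈ Z then 0 else _) ∈ O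
      split_ifs with hi
      · rw [mul_zero]
        exact zero_mem O
      · have h1 := (hrow i hi j₀ hj₀ hjO).2 s
        rwa [pow_zero, div_one, one_mul] at h1
    · exact hθ j s
  have hmain := hδ2 O Δ (x j₀) (e0 d Z fun l => x l / x j₀)
    (sy (fun l => x l / x j₀) (c0 n a D θ Z fun l => x l / x j₀))
    (r0 n a D θ Z (fun l => x l / x j₀) j₀) hj₀ hci hjO hO.1
    (trans0 n a D θ Z x hU i₀ hx j₀ hj₀) ?_ ?_ ?_
  · intro j l
    have h1 := hmain j l
    rwa [Fintype.card_sum, ← add_assoc] at h1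
  · rintro (l | (i | j))
    · exact mul_mem hO.1 (hjO l)
    · change Δ * (if i ∈ Z then 0 else _) ∈ O
      split_ifs with hi
      · rw [mul_zero]
        exact zero_mem O
      · exact mul_mem hO.1 (natCast_mem O _)
    · change Δ * 0 ∈ O
      rw [mul_zero]
      exact zero_mem O
  · intro s r
    have h4 := sub_mem (mul_mem (hjO s.2.1) (hcv ⟨s.1.1, s.2.2 ::ₛ s.1.2⟩ r))
      (mul_mem (hjO s.2.2) (hcv ⟨s.1.1, s.2.1 ::ₛ s.1.2⟩ r))
    have h5 : Δ * sy (fun l => x l / x j₀) (c0 n a D θ Z fun l => x l / x j₀) s r =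
        x s.2.1 / x j₀ * (Δ * cv n a D θ Z (fun l => x l / x j₀)
          ⟨s.1.1, s.2.2 ::ₛ s.1.2⟩ (emb r)) -
        x s.2.2 / x j₀ * (Δ * cv n a D θ Z (fun l => x l / x j₀)
          ⟨s.1.1, s.2.1 ::ₛ s.1.2⟩ (emb r)) := by
      simp only [sy, c0, Pi.sub_apply, Pi.smul_apply, smul_eq_mul]
      ring
    rw [h5]
    exact h4
  · intro i r
    exact hcv _ r

/-- **The key lemma for two-vectors**, one degree better than `key`. -/
theorem key_line {E : Type*} [Field E] {σ ι τ : Type*} [Fintype σ] [DecidableEq σ] [Fintype ι]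
    [DecidableEq ι] [Fintype τ] (d b q : ι → ℕ) (hq : ∀ i, 0 < q i)
    (a : (i : ι) → Sym σ (d i) → E) (p : (i : ι) → Sym σ (b i) → E)
    (h : (i : ι) → Sym σ (q i) → E) (D : Ix σ q → Derivation ℤ E E)
    (jj : τ → Ix σ q) (θ : τ → Ix σ q → E) (hD : Dual q h D jj θ) (hM : MovG d b q a p h D)
    (Z : Finset ι) (x : σ → E) (i₀ j₁ : σ) (hx : x i₀ = 1) (hj : j₁ ≠ i₀)
    (hZ : ∀ i ∈ Z, form (a i) x = 0) (hU : ∀ i ∉ Z, form (a i) x ≠ 0)
    (hP : ∀ i, form (p i) x ≠ 0) (w : ℕ)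
    (hw1 : 2 * w + 1 + Fintype.card τ ≤ ∑ i, q i + Z.card)
    (hw2 : w + 2 ≤ ∑ i, q i) (hm : MinorsVanish D x w) :
    ∃ δ : σ → E, (∃ j l, x j * δ l - x l * δ j ≠ 0) ∧
      KeyP d a D θ Z x fun j l => x j * δ l - x l * δ j := by
  obtain ⟨n, rfl⟩ : ∃ n : ι → ℕ, q = fun i => n i + 1 :=
    ⟨fun i => q i - 1, funext fun i => (Nat.sub_add_cancel (hq i)).symm⟩
  exact key_line_aux n d b a p h D jj θ hD hM Z x i₀ j₁ hx hj hZ hU hP w hw1 hw2 hm

end Pool.Agent.Helper10.CO
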