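import Pool.Agent.Helper8.CO.Final
import Pool.Agent.Helper8.LV.KeyFun

/-! # CO, cases 2 and 3: one moving form for every hypersurface, definitions

`F_i = F0_i(X, H_i)`: the coefficients of `H_i` move, and `D_s F_i = m_i D_s H_i` for all the
derivations `D_s` which kill the constants. -/

set_option autoImplicit false

namespace Pool.Agent.Helper10.CO

open scoped BigOperators
open Pool.Agent.Helper8.LG (Ix Dual form mon)
open Pool.Agent.Helper8.LV

section

variable {E : Type*} [Field E] {σ ι P : Type*}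

/-- `D_s F_i = m_i D_s H_i`, where `a i`, `p i`, `h i` are the coefficients of `F_i`, `m_i`,
`H_i`. -/
structure MovG [Fintype σ] [DecidableEq σ] (d b q : ι → ℕ) (a : (i : ι) → Sym σ (d i) → E)
    (p : (i : ι) → Sym σ (b i) → E) (h : (i : ι) → Sym σ (q i) → E)
    (D : P → Derivation ℤ E E) : Prop where
  deg : ∀ i, d i = b i + q i
  der : ∀ s i J, D s (a i J) = ∑ J' : Sym σ (b i), ∑ J'' : Sym σ (q i),
    if (J' : Multiset σ) + (J'' : Multiset σ) = (J : Multiset σ) then p i J' * D s (h i J'') else 0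

/-- The coefficients `a i J` of `F_i` are polynomials over `k` in the coefficients of `H_i`, and
the partial derivatives are the coefficients of the products of `m_i` with the monomials. -/
def FamG (k : Type*) [Field k] [Algebra k E] [Fintype σ] [DecidableEq σ] [Fintype ι]
    [DecidableEq ι] (d b q : ι → ℕ) (a : (i : ι) → Sym σ (d i) → E)
    (p : (i : ι) → Sym σ (b i) → E) (h : (i : ι) → Sym σ (q i) → E) : Prop :=
  ∃ Q : (i : ι) → Sym σ (d i) → MvPolynomial (Ix σ q) k,
    Pool.Agent.Helper6.CO.Fam k (fun i : ι => i) d b q a p h Q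

/-- change of the field by a ring homomorphism compatible with the derivations -/
theorem MovG.map [Fintype σ] [DecidableEq σ] {E' : Type*} [Field E'] {d b q : ι → ℕ}
    {a : (i : ι) → Sym σ (d i) → E} {p : (i : ι) → Sym σ (b i) → E}
    {h : (i : ι) → Sym σ (q i) → E} {D : P → Derivation ℤ E E} (H : MovG d b q a p h D)
    (f : E →+* E') (D' : P → Derivation ℤ E' E') (hD : ∀ s x, D' s (f x) = f (D s x)) :
    MovG d b q (fun i J => f (a i J)) (fun i J => f (p i J)) (fun i J => f (h i J)) D' where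
  deg := H.deg
  der := fun s i J => by
    rw [hD, H.der s i J, map_sum]
    refine Finset.sum_congr rfl fun J' _ => ?_
    rw [map_sum]
    refine Finset.sum_congr rfl fun J'' _ => ?_
    split_ifs
    · rw [map_mul, hD]
    · exact map_zero _

theorem FamG.map {k : Type*} [Field k] [Algebra k E] [Fintype σ] [DecidableEq σ] [Fintype ι]
    [DecidableEq ι] {E' : Type*} [Field E'] [Algebra E E'] [Algebra k E'] [IsScalarTower k E E']
    {d b q : ι → ℕ} {a : (i : ι) → Sym σ (d i) → E} {p : (i : ι) → Sym σ (b i) → E}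
    {h : (i : ι) → Sym σ (q i) → E} (H : FamG k d b q a p h) :
    FamG k d b q (fun i J => algebraMap E E' (a i J)) (fun i J => algebraMap E E' (p i J))
      fun i J => algebraMap E E' (h i J) := by
  obtain ⟨Q, hQ⟩ := H
  exact ⟨Q, Pool.Agent.Helper8.CO.fam_map hQ (IsScalarTower.toAlgHom k E E')⟩

theorem FamG.mov {k : Type*} [Field k] [Algebra k E] [Fintype σ] [DecidableEq σ] [Fintype ι]
    [DecidableEq ι] {d b q : ι → ℕ} {a : (i : ι) → Sym σ (d i) → E}
    {p : (i : ι) → Sym σ (b i) → E} {h : (i : ι) → Sym σ (q i) → E} (H : FamG k d b q a p h)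
    (D : P → Derivation ℤ E E) (hD : ∀ s (c : k), D s (algebraMap k E c) = 0) :
    MovG d b q a p h D := by
  obtain ⟨Q, hQ⟩ := H
  refine ⟨hQ.deg, fun s i J => ?_⟩
  classical
  rw [← hQ.eq i J, Pool.Agent.Helper8.CO.der_aeval (D s) (hD s), Fintype.sum_sigma]
  have h1 : ∀ t : ι, (∑ J'' : Sym σ (q t), MvPolynomial.aeval (fun s : Ix σ q => h s.1 s.2)
      (MvPolynomial.pderiv (⟨t, J''⟩ : Ix σ q) (Q i J)) * D s (h t J'')) =
      if t = i then ∑ J'' : Sym σ (q t), (∑ J' : Sym σ (b t),
        if (J' : Multiset σ) + (J'' : Multiset σ) = (J : Multiset σ) then p t J' else 0) *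
          D s (h t J'') else 0 := by
    intro t
    split_ifs with ht
    · refine Finset.sum_congr rfl fun J'' _ => ?_
      rw [hQ.der i J ⟨t, J''⟩, if_pos ht]
    · refine Finset.sum_eq_zero fun J'' _ => ?_
      rw [hQ.der i J ⟨t, J''⟩, if_neg ht, zero_mul]
  rw [Finset.sum_congr rfl fun t _ => h1 t, Finset.sum_ite_eq' Finset.univ i,
    if_pos (Finset.mem_univ i), Finset.sum_comm]
  refine Finset.sum_congr rfl fun J'' _ => ?_
  rw [Finset.sum_mul]
  refine Finset.sum_congr rfl fun J' _ => ?_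
  rw [ite_mul, zero_mul]

theorem FamG.tower {k₀ k : Type*} [Field k₀] [Field k] [Algebra k₀ E] [Algebra k E]
    [Algebra k₀ k] [IsScalarTower k₀ k E] [Fintype σ] [DecidableEq σ] [Fintype ι]
    [DecidableEq ι] {d b q : ι → ℕ} {a : (i : ι) → Sym σ (d i) → E}
    {p : (i : ι) → Sym σ (b i) → E} {h : (i : ι) → Sym σ (q i) → E} (H : FamG k₀ d b q a p h) :
    FamG k d b q a p h := by
  obtain ⟨Q, hQ⟩ := H
  exact ⟨_, Pool.Agent.Helper8.CO.fam_tower hQ⟩

/-- the derivations of the coefficients of `F_i` -/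
theorem movG_der [Fintype σ] [DecidableEq σ] {d b q : ι → ℕ} {a : (i : ι) → Sym σ (d i) → E}
    {p : (i : ι) → Sym σ (b i) → E} {h : (i : ι) → Sym σ (q i) → E}
    {D : P → Derivation ℤ E E} (hM : MovG d b q a p h D) (s : P) (i : ι) (x : σ → E) :
    ∑ J, D s (a i J) * mon x J = form (p i) x * ∑ J, D s (h i J) * mon x J := by
  have h1 := kf_conv (hM.deg i) (p i) (fun J => D s (h i J)) x
  unfold form
  rw [h1]
  refine Finset.sum_congr rfl fun J _ => ?_
  rw [hM.der s i J]

end

theorem exists_functional {E : Type*} [Field E] {σ ι τ : Type*} [Fintype σ] [DecidableEq σ]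
    [DecidableEq ι] [Fintype ι] [Fintype τ] (n : ι → ℕ) {d b : ι → ℕ}
    (a : (i : ι) → Sym σ (d i) → E) (p : (i : ι) → Sym σ (b i) → E)
    (h : (i : ι) → Sym σ (n i + 1) → E)
    (D : Ix σ (fun i => n i + 1) → Derivation ℤ E E)
    (jj : τ → Ix σ (fun i => n i + 1)) (θ : τ → Ix σ (fun i => n i + 1) → E)
    (hD : Dual (fun i => n i + 1) h D jj θ) (hM : MovG d b (fun i => n i + 1) a p h D)
    (Z : Finset ι) (x : σ → E)
    (hZ : ∀ i ∈ Z, form (a i) x = 0) (hU : ∀ i ∉ Z, form (a i) x ≠ 0) :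
    ∃ lam : ((σ ⊕ ι) ⊕ τ → E) →ₗ[E] (ι → E), lam (eul d Z x) = 0 ∧
      (∀ (i : ι) (J : Sym σ (n i + 1)),
        lam (cv n a D θ Z x ⟨i, J⟩) = Pi.single i (-(form (p i) x * mon x J))) ∧
      ∀ s, lam (syz n a D θ Z x s) = 0 := by
  choose g hg he using fun i : ι => Pool.Agent.Helper8.LV.kf_grad_form (a i) x
  let lam : ((σ ⊕ ι) ⊕ τ → E) →ₗ[E] (ι → E) := LinearMap.pi fun i =>
    (∑ l, g i l • (LinearMap.proj (Sum.inl (Sum.inl l)) : ((σ ⊕ ι) ⊕ τ → E) →ₗ[E] E)) -
      (if i ∈ Z then (0 : E) else form (a i) x) •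
        (LinearMap.proj (Sum.inl (Sum.inr i)) : ((σ ⊕ ι) ⊕ τ → E) →ₗ[E] E) -
      ∑ j, (form (p i) x * if (jj j).1 = i then mon x (jj j).2 else 0) •
        (LinearMap.proj (Sum.inr j) : ((σ ⊕ ι) ⊕ τ → E) →ₗ[E] E)
  have hlam : ∀ (v : (σ ⊕ ι) ⊕ τ → E) (i : ι), lam v i = ∑ l, g i l * v (Sum.inl (Sum.inl l)) -
      (if i ∈ Z then (0 : E) else form (a i) x) * v (Sum.inl (Sum.inr i)) -
      ∑ j, (form (p i) x * if (jj j).1 = i then mon x (jj j).2 else 0) * v (Sum.inr j) := by
    intro v i
    show ((∑ l, g i l • (LinearMap.proj (Sum.inl (Sum.inl l)) : ((σ ⊕ ι) ⊕ τ → E) →ₗ[E] E)) -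
      (if i ∈ Z then (0 : E) else form (a i) x) •
        (LinearMap.proj (Sum.inl (Sum.inr i)) : ((σ ⊕ ι) ⊕ τ → E) →ₗ[E] E) -
      ∑ j, (form (p i) x * if (jj j).1 = i then mon x (jj j).2 else 0) •
        (LinearMap.proj (Sum.inr j) : ((σ ⊕ ι) ⊕ τ → E) →ₗ[E] E)) v = _
    rw [LinearMap.sub_apply, LinearMap.sub_apply, LinearMap.sum_apply, LinearMap.sum_apply,
      LinearMap.smul_apply, LinearMap.proj_apply, smul_eq_mul]
    simp only [LinearMap.smul_apply, LinearMap.proj_apply, smul_eq_mul]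
  have hcv : ∀ (s : Ix σ (fun i => n i + 1)) (i : ι),
      lam (cv n a D θ Z x s) i = -∑ J, D s (a i J) * mon x J -
        ∑ j, (form (p i) x * if (jj j).1 = i then mon x (jj j).2 else 0) * θ j s := by
    intro s i
    rw [hlam]
    have h1 := hg i (D s)
    simp only [cv, Sum.elim_inl, Sum.elim_inr]
    by_cases hi : i ∈ Z
    · rw [if_pos hi, hZ i hi, map_zero] at *
      rw [zero_mul, sub_zero]
      linear_combination -h1
    · rw [if_neg hi, if_neg hi, mul_div_cancel₀ _ (hU i hi), h1]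
      ring
  -- the coefficient form of `D_s H_i`
  have hsum : ∀ (s : Ix σ (fun i => n i + 1)) (i : ι), ∑ J, D s (h i J) * mon x J =
      (if s.1 = i then mon x s.2 else 0) -
        ∑ j, (if (jj j).1 = i then mon x (jj j).2 else 0) * θ j s := by
    intro s i
    have h1 : ∀ J : Sym σ (n i + 1), D s (h i J) * mon x J =
        (if s = ⟨i, J⟩ then mon x J else 0) -
          ∑ j, if jj j = ⟨i, J⟩ then θ j s * mon x J else 0 := by
      intro J
      rw [hD s ⟨i, J⟩, sub_mul, Finset.sum_mul]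
      congr 1
      · split_ifs <;> simp
      · refine Finset.sum_congr rfl fun j _ => ?_
        split_ifs <;> simp
    have h2 : ∀ (q : Ix σ (fun i => n i + 1)) (f : E),
        ∑ J : Sym σ (n i + 1), (if q = ⟨i, J⟩ then f * mon x J else 0) =
          f * if q.1 = i then mon x q.2 else 0 := by
      rintro ⟨k, K⟩ f
      by_cases hk : k = i
      · subst hk
        rw [Finset.sum_eq_single K]
        · simp
        · intro J _ hJ
          rw [if_neg]
          intro h
          apply hJ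
          have := eq_of_heq (Sigma.mk.inj h).2
          exact this.symm
        · intro h
          exact absurd (Finset.mem_univ K) h
      · rw [Finset.sum_eq_zero]
        · simp [hk]
        · intro J _
          rw [if_neg]
          intro h
          exact hk (Sigma.mk.inj h).1
    rw [Finset.sum_congr rfl fun J _ => h1 J, Finset.sum_sub_distrib, Finset.sum_comm]
    congr 1
    · have h3 := h2 s 1
      simpa using h3
    · refine Finset.sum_congr rfl fun j _ => ?_
      rw [h2 (jj j) (θ j s), mul_comm]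
  have hcvD : ∀ (i : ι) (J : Sym σ (n i + 1)),
      lam (cv n a D θ Z x ⟨i, J⟩) = Pi.single i (-(form (p i) x * mon x J)) := by
    intro i J
    funext k
    rw [hcv, movG_der hM, hsum, mul_sub, Finset.mul_sum]
    simp only [← mul_assoc]
    by_cases hk : k = i
    · subst hk
      rw [Pi.single_eq_same, if_pos rfl]
      ring
    · rw [Pi.single_eq_of_ne hk, if_neg (fun h => hk h.symm)]
      ring
  refine ⟨lam, ?_, hcvD, ?_⟩
  · funext i
    rw [hlam]
    have h1 := he i
    simp only [eul, Sum.elim_inl, Sum.elim_inr, Pi.zero_apply, mul_zero, Finset.sum_const_zero,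
      sub_zero]
    rw [h1]
    by_cases hi : i ∈ Z
    · rw [if_pos hi, hZ i hi]
      ring
    · rw [if_neg hi, if_neg hi]
      ring
  · rintro ⟨i, I, j, l⟩
    simp only [syz, map_sub, map_smul, hcvD, kf_mon_cons]
    funext k
    by_cases hk : k = i
    · subst hk
      simp only [Pi.sub_apply, Pi.smul_apply, Pi.single_eq_same, smul_eq_mul, Pi.zero_apply]
      ring
    · simp only [Pi.sub_apply, Pi.smul_apply, Pi.single_eq_of_ne hk, smul_eq_mul, Pi.zero_apply]
      ring

end Pool.Agent.Helper10.CO
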