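import Pool.Agent.Helper10.CO.CaseTwo
import Pool.Agent.Helper10.LB.SecRound

/-! # CO: sequences of integral points with bounded two-vectors are bounded, nonlinear families -/

set_option autoImplicit false

namespace Pool.Agent.Helper10.CO

open scoped BigOperators
open Polynomial Pool.Agent.Helper8.LG Pool.Agent.Helper10.LB

/-- a nonzero polynomial does not vanish at some natural number -/
private theorem pbv_nat {Ω : Type*} [Field Ω] [CharZero Ω] (p : Polynomial Ω) (hp : p ≠ 0) :
    ∃ n : ℕ, p.eval (n : Ω) ≠ 0 := by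
  by_contra h
  push Not at h
  apply hp
  refine Polynomial.eq_zero_of_infinite_isRoot p ?_
  exact Set.infinite_of_injective_forall_mem (f := fun n : ℕ => (n : Ω)) Nat.cast_injective
    fun n => h n

private theorem pbv_alg1 {F : Type*} [Field F] (u v z n : F) (h : 1 - n * z ≠ 0) :
    u + z * v = (1 - n * z) * (u + z / (1 - n * z) * (v + n * u)) := by
  have h1 : (1 - n * z) * (z / (1 - n * z)) = z := mul_div_cancel₀ z h
  linear_combination -(v + n * u) * h1

private theorem pbv_alg2 {F : Type*} [Field F] (z n : F) (h : 1 - n * z ≠ 0) :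
    z = z / (1 - n * z) / (1 + n * (z / (1 - n * z))) := by
  have h1 : (1 - n * z) * (z / (1 - n * z)) = z := mul_div_cancel₀ z h
  generalize z / (1 - n * z) = t at h1 ⊢
  have h2 : 1 + n * t ≠ 0 := by
    intro h0
    have h3 : t = 0 := by linear_combination h1 + z * h0
    rw [h3, mul_zero, add_zero] at h0
    exact one_ne_zero h0
  rw [eq_div_iff h2]
  linear_combination -h1

/-- `G x_l` is in a finite-dimensional space for infinitely many members of the sequence -/
theorem point_bdd {k L : Type*} [Field k] [Field L] [CharZero L] [Algebra k L]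
    {T : Type*} [Finite T] [DecidableEq T] (y : T → L)
    {σ ι τ : Type*} [Fintype σ] [DecidableEq σ]
    [Fintype ι] [DecidableEq ι] [Fintype τ] {d b q : ι → ℕ}
    (a : (i : ι) → Sym σ (d i) → L) (ap : (i : ι) → Sym σ (b i) → L)
    (ah : (i : ι) → Sym σ (q i) → L) (D : Ix σ q → Derivation ℤ L L) (hy : Dirs k y D)
    (jj : τ → Ix σ q) (θ : τ → Ix σ q → L) (hD : Dual q ah D jj θ)
    (hM : MovG d b q a ap ah D) (Z : Finset ι)
    (hnum : 2 * Fintype.card σ + Fintype.card τ ≤ ∑ i, q i + Z.card + 1)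
    (A : Subalgebra k L) (hA : A.FG) (i₀ : σ)
    (V : Submodule k L) [FiniteDimensional k V] (X : ℕ → σ → L)
    (hX : ∀ m, Pt a Z A.toSubring (X m)) (hXp : ∀ m i, form (ap i) (X m) ≠ 0)
    (h1 : ∀ m, X m i₀ = 1)
    (hP : ∀ m, ∃ δ : σ → L, (∃ j l, X m j * δ l - X m l * δ j ≠ 0) ∧
      ∀ j l, X m j * δ l - X m l * δ j ∈ V) :
    ∃ V' : Submodule k L, FiniteDimensional k V' ∧
      {m | ∃ G : L, G ≠ 0 ∧ ∀ l, G * X m l ∈ V'}.Infinite := by
  classical
  choose δ hδ hδV using hP
  obtain ⟨Ω, _, Q, hsurj, hker⟩ := ul_exists L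
  have hQ : IsUl Q := ⟨hsurj, hker⟩
  have : CharZero Ω := by
    have hinj : Function.Injective (Q.comp (Pi.constRingHom ℕ L)) :=
      (Q.comp (Pi.constRingHom ℕ L)).injective
    exact charZero_of_injective_ringHom hinj
  set x : σ → Ω := fun l => Q fun m => X m l with hx
  set e : σ → Ω := fun l => Q fun m => δ m l with he
  set P : σ → σ → Ω := fun j l => x j * e l - x l * e j with hPdef
  have hPQ : ∀ j l, P j l = Q fun m => X m j * δ m l - X m l * δ m j := by
    intro j l
    have h2 : (fun m => X m j * δ m l - X m l * δ m j) =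
        (fun m => X m j) * (fun m => δ m l) - (fun m => X m l) * (fun m => δ m j) := rfl
    rw [h2, map_sub, map_mul, map_mul]
  have hPF : ∀ j l, P j l ∈ BF k hQ := by
    intro j l
    rw [mem_BF]
    have h1V : (1 : L) ∈ V ⊔ k ∙ (1 : L) :=
      (le_sup_right : k ∙ (1 : L) ≤ V ⊔ k ∙ (1 : L)) (Submodule.mem_span_singleton_self _)
    refine bset_of_fd hQ (V ⊔ k ∙ (1 : L)) (fun m => X m j * δ m l - X m l * δ m j)
      (fun _ => 1) (Filter.Eventually.of_forall fun m => ?_)
      (Filter.Eventually.of_forall fun m => h1V)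
      (Filter.Eventually.of_forall fun m => one_ne_zero) _ ?_
    · exact (le_sup_left : V ≤ V ⊔ k ∙ (1 : L)) (hδV m j l)
    · have h2 : (fun _ : ℕ => (1 : L)) = 1 := rfl
      rw [hPQ, h2, map_one, mul_one]
  -- some two-vector entry is not zero
  have hP0 : ∃ j l, P j l ≠ 0 := by
    by_contra hcon
    push Not at hcon
    have h2 : ∀ᶠ m in (Filter.hyperfilter ℕ : Filter ℕ), ∀ j l,
        X m j * δ m l - X m l * δ m j = 0 := by
      rw [Filter.eventually_all]
      intro j
      rw [Filter.eventually_all]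
      intro l
      have h3 := hcon j l
      rw [hPQ, hker] at h3
      exact h3
    obtain ⟨m, hm⟩ := h2.exists
    obtain ⟨j, l, hjl⟩ := hδ m
    exact hjl (hm j l)
  have hx0 : x i₀ = 1 := by
    have h2 : (fun m => X m i₀) = 1 := by
      funext m
      exact h1 m
    show (Q fun m => X m i₀) = 1
    rw [h2, map_one]
  obtain ⟨b, hb⟩ : ∃ b, P i₀ b ≠ 0 := by
    by_contra hcon
    push Not at hcon
    have h2 : ∀ l, e l = x l * e i₀ := by
      intro l
      have h3 := hcon l
      simp only [hPdef, hx0, one_mul] at h3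
      exact sub_eq_zero.1 h3
    obtain ⟨j, l, hjl⟩ := hP0
    apply hjl
    show x j * e l - x l * e j = 0
    rw [h2 l, h2 j]
    ring
  set z : Ω := x b with hz
  set lam : Ω := (P i₀ b)⁻¹ with hlam
  have hlam0 : lam ≠ 0 := inv_ne_zero hb
  set u : σ → Ω := fun l => P l b with hu
  set v : σ → Ω := fun l => P i₀ l with hv
  have hxl : ∀ l, x l = lam * (u l + z * v l) := by
    intro l
    rw [hlam, eq_inv_mul_iff_mul_eq₀ hb]
    show (x i₀ * e b - x b * e i₀) * x l =
      (x l * e b - x b * e l) + x b * (x i₀ * e l - x l * e i₀)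
    rw [hx0]
    ring
  have hform : ∀ i, form (fun J => Q fun _ => a i J) (fun l => u l + z * v l) * lam ^ d i =
      Q fun m => form (a i) (X m) := by
    intro i
    rw [ul_Q_form]
    have h2 : (fun l => Q fun m => X m l) = fun l => lam * (u l + z * v l) := funext hxl
    rw [h2, dirTwo_form_mul, mul_comm]
  have hne : ∀ i ∉ Z, lf (fun J => Q fun _ => a i J) v u ≠ 0 := by
    intro i hi h0
    have h2 : (lf (fun J => Q fun _ => a i J) v u).reflect (d i) = 0 := by
      rw [h0, Polynomial.reflect_zero]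
    rw [lf_reflect] at h2
    have h3 : (lf (fun J => Q fun _ => a i J) u v).eval z = 0 := by rw [h2, eval_zero]
    rw [lf_eval] at h3
    have h4 := hform i
    rw [h3, zero_mul] at h4
    have h5 := (hker _).1 h4.symm
    obtain ⟨m, hm⟩ := h5.exists
    exact (hX m).ne i hi hm
  obtain ⟨n, hn⟩ := pbv_nat ((1 - C z * Polynomial.X) *
      ∏ i ∈ Zᶜ, lf (fun J => Q fun _ => a i J) v u) (by
    refine mul_ne_zero ?_ (Finset.prod_ne_zero_iff.2 fun i hi => hne i (Finset.mem_compl.1 hi))
    intro h0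
    have h2 : (1 - C z * Polynomial.X : Polynomial Ω).eval 0 = 0 := by rw [h0, eval_zero]
    simp at h2)
  rw [eval_mul, eval_prod] at hn
  have hn1 : 1 - n * z ≠ 0 := by
    have h2 := left_ne_zero_of_mul hn
    simp only [eval_sub, eval_one, eval_mul, eval_C, eval_X] at h2
    rwa [mul_comm]
  have hn2 : ∀ i ∉ Z, form (fun J => Q fun _ => a i J) (fun l => v l + n * u l) ≠ 0 := by
    intro i hi
    have h2 := Finset.prod_ne_zero_iff.1 (right_ne_zero_of_mul hn) i (Finset.mem_compl.2 hi)
    rwa [lf_eval] at h2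
  have huF : ∀ l, u l ∈ BF k hQ := fun l => hPF l b
  have hvF : ∀ l, v l ∈ BF k hQ := fun l => hPF i₀ l
  have hnF : (n : Ω) ∈ BF k hQ := natCast_mem _ n
  have halg : IsAlgebraic (BF k hQ) (z / (1 - n * z)) := by
    refine case_two hQ y a ap ah D hy jj θ hD hM Z hnum A hA X hX hXp u (fun l => v l + n * u l) huF
      (fun l => add_mem (hvF l) (mul_mem hnF (huF l))) i₀ b ?_ hn2 (lam * (1 - n * z)) _
      (mul_ne_zero hlam0 hn1) fun l => ?_
    · have h2 : u i₀ * (v b + n * u b) - u b * (v i₀ + n * u i₀) = P i₀ b ^ 2 := by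
        have h3 : u b = 0 := by
          show x b * e b - x b * e b = 0
          ring
        rw [h3]
        show P i₀ b * (P i₀ b + n * 0) - 0 * _ = _
        ring
      show u i₀ * (v b + n * u b) - u b * (v i₀ + n * u i₀) ≠ 0
      rw [h2]
      exact pow_ne_zero _ hb
    · show x l = _
      rw [hxl l, mul_assoc]
      congr 1
      exact pbv_alg1 _ _ _ _ hn1
  have hz' : z / (1 - n * z) ∈ BF k hQ := alg_bdd hQ y D hy _ halg
  have hzF : z ∈ BF k hQ := by
    rw [pbv_alg2 z n hn1]
    exact div_mem hz' (add_mem (one_mem _) (mul_mem hnF hz'))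
  have hxF : ∀ l, x l ∈ bset k Q := by
    intro l
    rw [← mem_BF k hQ, hxl l]
    exact mul_mem (inv_mem (hPF i₀ b)) (add_mem (huF l) (mul_mem hzF (hvF l)))
  obtain ⟨V', hV', nn, dd, hnn, hdd, hdd0, hxd⟩ := bset_common hQ x hxF
  refine ⟨V', hV', ?_⟩
  have hev : ∀ᶠ m in (Filter.hyperfilter ℕ : Filter ℕ), ∀ l, X m l * dd m = nn l m := by
    rw [Filter.eventually_all]
    intro l
    have h2 : Q ((fun m => X m l) * dd) = Q (nn l) := by
      rw [map_mul]
      exact hxd l
    exact (ul_eq Q hker _ _).1 h2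
  intro hfin
  refine Filter.notMem_hyperfilter_of_finite hfin ?_
  filter_upwards [hev] with m hm
  refine ⟨dd m, hdd0 m, fun l => ?_⟩
  rw [mul_comm, hm l]
  exact hnn l m

end Pool.Agent.Helper10.CO
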